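import Mathlib

/-!
# Special mixed graphs without satellites are rigid

Problem MP_6cc975_al, Q1 (answer: yes). Theorem `result`: if `Γ` is a special mixed graph
(every negative vertex is a sinkhole) in which no sinkhole has a satellite, then every finite mixed
graph `Γ'` with `T(Γ') ≅ T(Γ)` is isomorphic to `Γ` as a mixed graph.

Proof. An isomorphism of the groups gives a linear isomorphism `e` of `Hom(T, ℤ/2) = (ℤ/2)^V`, and
it preserves the relation that the cup product of `x` and `y` is zero. By the presentation this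
relation says that `B Γ x y = 0`, where the coefficient of `B Γ x y` at an edge `{u, v}` is
`x u * y v + x v * y u`, plus `x u * y u` if the edge is directed with origin `u`
(`cupZero_iff`, `B_pull`).

* The indicator `om` of the negative vertices satisfies `B (y + om) y = 0` for all `y`. Hence
  `Γ'` is special as well, and its negative vertices are determined by `e om` up to isolated
  vertices (`special_of_om`, `negative_iff`).
* For a negative vertex `a`, a comparison of the dimensions of annihilators and the absence of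
  satellites give a vertex `v'` of `Γ'` with `e (ex a) = ex v'` up to isolated vertices
  (`partner`). So we may assume that `e` maps the basis vectors of the negative vertices to those
  of the negative vertices of `Γ'` (`straighten`).
* Then the block diagonal part of `e` satisfies the hypothesis of a comparison theorem for the
  underlying graphs: a linear isomorphism that, in both directions, sends non-adjacent vertices to
  classes with product zero produces an isomorphism of the graphs along its support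
  (`comparison`; the determinant gives a bijection `σ` with `φ (ex v) (σ v) = 1`, and dimensions of
  annihilators show that it preserves degrees and non-adjacency).
-/

namespace Pool.Agent.Results.MP_6cc975_al.SpecialRigid

open Multiplicative

/-- A mixed graph: a simplicial graph `G` in which some edges are directed; `dir u v` says that
`{u, v}` is a directed edge with origin `u` and terminus `v`. -/
structure MixedGraph (V : Type) where
  G : SimpleGraph V
  dir : V → V → Prop
  dir_adj : ∀ {u v}, dir u v → G.Adj u v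
  dir_asymm : ∀ {u v}, dir u v → ¬ dir v u

variable {V V' : Type}

/-- The relators of the twisted right-angled Artin group: `u v u⁻¹ v⁻¹` for an undirected edge
`{u, v}`, and `u v u v⁻¹` (the Klein relation `u v u = v`) for a directed edge with origin `u`
and terminus `v`. -/
def rels (Γ : MixedGraph V) : Set (FreeGroup V) :=
  {r | (∃ u v, Γ.G.Adj u v ∧ ¬ Γ.dir u v ∧ ¬ Γ.dir v u ∧
      r = FreeGroup.of u * FreeGroup.of v * (FreeGroup.of u)⁻¹ * (FreeGroup.of v)⁻¹) ∨
    (∃ u v, Γ.dir u v ∧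
      r = FreeGroup.of u * FreeGroup.of v * FreeGroup.of u * (FreeGroup.of v)⁻¹)}

/-- The twisted right-angled Artin group of a mixed graph. -/
abbrev T (Γ : MixedGraph V) : Type := PresentedGroup (rels Γ)

/-- A vertex is negative if it is the terminus of a directed edge. -/
def Negative (Γ : MixedGraph V) (x : V) : Prop := ∃ y, Γ.dir y x

/-- A vertex is a sinkhole if every edge at it is directed and has it as its terminus. -/
def Sinkhole (Γ : MixedGraph V) (x : V) : Prop := ∀ y, Γ.G.Adj y x → Γ.dir y x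

/-- A mixed graph is special if every negative vertex is a sinkhole. -/
def Special (Γ : MixedGraph V) : Prop := ∀ x, Negative Γ x → Sinkhole Γ x

/-- `b` is a satellite of `a`: it has distance exactly `2` from `a` and every vertex adjacent to
`b` is adjacent to `a`. -/
def Satellite (Γ : MixedGraph V) (a b : V) : Prop :=
  Γ.G.dist a b = 2 ∧ ∀ y, Γ.G.Adj b y → Γ.G.Adj a y

/-- No sinkhole has a satellite. -/
def NoSatellites (Γ : MixedGraph V) : Prop := ∀ a, Sinkhole Γ a → ∀ b, ¬ Satellite Γ a b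

/-- Isomorphism of mixed graphs. -/
def Iso (Γ' : MixedGraph V') (Γ : MixedGraph V) : Prop :=
  ∃ e : V' ≃ V, (∀ u v, Γ'.G.Adj u v ↔ Γ.G.Adj (e u) (e v)) ∧
    ∀ u v, Γ'.dir u v ↔ Γ.dir (e u) (e v)

/-- `Γ` is rigid: every (finite) mixed graph with an isomorphic group is isomorphic to `Γ`. -/
def Rigid (Γ : MixedGraph V) : Prop :=
  ∀ (V' : Type) [Finite V'] (Γ' : MixedGraph V'), Nonempty (T Γ' ≃* T Γ) → Iso Γ' Γ

/-! ### Homomorphisms to `ℤ/2` and their cup products -/

/-- Two homomorphisms `α, β : T → ℤ/2` have cup product zero. -/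
def CupZero {H : Type} [Group H] (α β : H →* Multiplicative (ZMod 2)) : Prop :=
  ∃ h : H → ZMod 2, ∀ g g', h (g * g') = h g + h g' + toAdd (α g) * toAdd (β g')

/-- The group of upper unitriangular `3 × 3` matrices over `ℤ/2`. -/
@[ext] structure Heis where
  a : ZMod 2
  b : ZMod 2
  c : ZMod 2
deriving DecidableEq

instance : Mul Heis := ⟨fun x y => ⟨x.a + y.a, x.b + y.b, x.c + y.c + x.a * y.b⟩⟩
instance : One Heis := ⟨⟨0, 0, 0⟩⟩
instance : Inv Heis := ⟨fun x => ⟨- x.a, - x.b, - x.c + x.a * x.b⟩⟩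

@[simp] lemma Heis.mul_a (x y : Heis) : (x * y).a = x.a + y.a := rfl
@[simp] lemma Heis.mul_b (x y : Heis) : (x * y).b = x.b + y.b := rfl
@[simp] lemma Heis.mul_c (x y : Heis) : (x * y).c = x.c + y.c + x.a * y.b := rfl
@[simp] lemma Heis.one_a : (1 : Heis).a = 0 := rfl
@[simp] lemma Heis.one_b : (1 : Heis).b = 0 := rfl
@[simp] lemma Heis.one_c : (1 : Heis).c = 0 := rfl
@[simp] lemma Heis.inv_a (x : Heis) : (x⁻¹).a = - x.a := rfl
@[simp] lemma Heis.inv_b (x : Heis) : (x⁻¹).b = - x.b := rfl
@[simp] lemma Heis.inv_c (x : Heis) : (x⁻¹).c = - x.c + x.a * x.b := rfl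

instance : Group Heis :=
  Group.ofLeftAxioms
    (by intro x y z; ext <;> simp <;> ring)
    (by intro x; ext <;> simp)
    (by
      intro x
      ext
      · rw [Heis.mul_a, Heis.inv_a, Heis.one_a]; ring
      · rw [Heis.mul_b, Heis.inv_b, Heis.one_b]; ring
      · rw [Heis.mul_c, Heis.inv_c, Heis.inv_a, Heis.one_c]; ring)

section Group

variable (Γ : MixedGraph V)

lemma chi_rels (x : V → ZMod 2) :
    ∀ r ∈ rels Γ, FreeGroup.lift (fun v => ofAdd (x v)) r = 1 := by
  rintro r (⟨u, v, -, -, -, rfl⟩ | ⟨u, v, -, rfl⟩)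
  · simp only [map_mul, map_inv, FreeGroup.lift_apply_of]
    rw [mul_comm (ofAdd (x u)), mul_assoc, mul_assoc]
    simp
  · simp only [map_mul, map_inv, FreeGroup.lift_apply_of]
    rw [mul_comm (ofAdd (x u)), mul_assoc (ofAdd (x v)), mul_comm (ofAdd (x v)), mul_assoc]
    simp only [mul_inv_cancel, mul_one]
    rw [← ofAdd_add]
    have : x u + x u = 0 := CharTwo.add_self_eq_zero _
    rw [this]
    rfl

/-- The homomorphism `T → ℤ/2` with given values on the generators. -/
def chi (x : V → ZMod 2) : T Γ →* Multiplicative (ZMod 2) :=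
  PresentedGroup.toGroup (chi_rels Γ x)

lemma chi_of (x : V → ZMod 2) (v : V) :
    chi Γ x (PresentedGroup.of v) = ofAdd (x v) := PresentedGroup.toGroup.of _

lemma eq_chi (α : T Γ →* Multiplicative (ZMod 2)) :
    α = chi Γ (fun v => toAdd (α (PresentedGroup.of v))) := by
  apply PresentedGroup.ext
  intro v
  rw [chi_of]
  rfl

open Classical in
/-- The coefficient at the edge `{u, v}` of the product of two classes. -/
noncomputable def B (x y : V → ZMod 2) (u v : V) : ZMod 2 :=
  if Γ.G.Adj u v then x u * y v + x v * y u + (if Γ.dir u v then x u * y u else 0)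
    + (if Γ.dir v u then x v * y v else 0) else 0

lemma B_symm (x y : V → ZMod 2) (u v : V) : B Γ x y u v = B Γ x y v u := by
  unfold B
  rw [Γ.G.adj_comm u v]
  split_ifs <;> ring

lemma rel_undirected {u v : V} (h : Γ.G.Adj u v) (h1 : ¬ Γ.dir u v) (h2 : ¬ Γ.dir v u) :
    (PresentedGroup.of u : T Γ) * PresentedGroup.of v
      = PresentedGroup.of v * PresentedGroup.of u := by
  have hr : FreeGroup.of u * FreeGroup.of v * (FreeGroup.of u)⁻¹ * (FreeGroup.of v)⁻¹
      ∈ rels Γ := Or.inl ⟨u, v, h, h1, h2, rfl⟩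
  have h3 := PresentedGroup.one_of_mem hr
  simp only [map_mul, map_inv] at h3
  have h4 : (PresentedGroup.of u : T Γ) * PresentedGroup.of v * (PresentedGroup.of u)⁻¹
      * (PresentedGroup.of v)⁻¹ = 1 := h3
  rw [mul_inv_eq_one, mul_inv_eq_iff_eq_mul] at h4
  exact h4

lemma rel_directed {u v : V} (h : Γ.dir u v) :
    (PresentedGroup.of u : T Γ) * PresentedGroup.of v * PresentedGroup.of u
      = PresentedGroup.of v := by
  have hr : FreeGroup.of u * FreeGroup.of v * FreeGroup.of u * (FreeGroup.of v)⁻¹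
      ∈ rels Γ := Or.inr ⟨u, v, h, rfl⟩
  have h3 := PresentedGroup.one_of_mem hr
  simp only [map_mul, map_inv] at h3
  have h4 : (PresentedGroup.of u : T Γ) * PresentedGroup.of v * PresentedGroup.of u
      * (PresentedGroup.of v)⁻¹ = 1 := h3
  rw [mul_inv_eq_one] at h4
  exact h4

lemma B_zero_of_cupZero {x y : V → ZMod 2} (h : CupZero (chi Γ x) (chi Γ y)) (u v : V) :
    B Γ x y u v = 0 := by
  obtain ⟨h, hh⟩ := h
  have key : ∀ {u v : V}, Γ.dir u v → B Γ x y u v = 0 := by
    intro u v hd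
    have h1 := rel_directed Γ hd
    have h2 := hh (PresentedGroup.of u * PresentedGroup.of v) (PresentedGroup.of u)
    rw [h1, hh, map_mul, toAdd_mul, chi_of, chi_of, chi_of, chi_of, toAdd_ofAdd, toAdd_ofAdd,
      toAdd_ofAdd, toAdd_ofAdd] at h2
    unfold B
    rw [if_pos (Γ.dir_adj hd), if_pos hd, if_neg (Γ.dir_asymm hd)]
    have e1 : h (PresentedGroup.of u) + h (PresentedGroup.of u) = 0 :=
      CharTwo.add_self_eq_zero _
    linear_combination -h2 - e1
  by_cases hadj : Γ.G.Adj u v
  · by_cases h1 : Γ.dir u v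
    · exact key h1
    · by_cases h2 : Γ.dir v u
      · rw [B_symm]; exact key h2
      · have h3 := rel_undirected Γ hadj h1 h2
        have h4 := hh (PresentedGroup.of u) (PresentedGroup.of v)
        rw [h3, hh, chi_of, chi_of, chi_of, chi_of, toAdd_ofAdd, toAdd_ofAdd, toAdd_ofAdd,
          toAdd_ofAdd] at h4
        unfold B
        rw [if_pos hadj, if_neg h1, if_neg h2]
        have e1 : x v * y u + x v * y u = 0 := CharTwo.add_self_eq_zero _
        linear_combination -h4 + e1
  · unfold B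
    rw [if_neg hadj]

lemma heis_comm : ∀ p q r s : ZMod 2, p * s + r * q = 0 →
    (⟨p, q, 0⟩ : Heis) * ⟨r, s, 0⟩ * (⟨p, q, 0⟩ : Heis)⁻¹ * (⟨r, s, 0⟩ : Heis)⁻¹ = 1 := by
  decide

lemma heis_klein : ∀ p q r s : ZMod 2, p * s + r * q + p * q = 0 →
    (⟨p, q, 0⟩ : Heis) * ⟨r, s, 0⟩ * (⟨p, q, 0⟩ : Heis) * (⟨r, s, 0⟩ : Heis)⁻¹ = 1 := by
  decide

lemma cupZero_of_B {x y : V → ZMod 2} (h : ∀ u v, B Γ x y u v = 0) :
    CupZero (chi Γ x) (chi Γ y) := by
  have hrel : ∀ r ∈ rels Γ, FreeGroup.lift (fun v => (⟨x v, y v, 0⟩ : Heis)) r = 1 := by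
    rintro r (⟨u, v, h1, h2, h3, rfl⟩ | ⟨u, v, h1, rfl⟩)
    · simp only [map_mul, map_inv, FreeGroup.lift_apply_of]
      apply heis_comm
      have := h u v
      unfold B at this
      rw [if_pos h1, if_neg h2, if_neg h3] at this
      simpa using this
    · simp only [map_mul, map_inv, FreeGroup.lift_apply_of]
      apply heis_klein
      have := h u v
      unfold B at this
      rw [if_pos (Γ.dir_adj h1), if_pos h1, if_neg (Γ.dir_asymm h1)] at this
      simpa using this
  let H : T Γ →* Heis := PresentedGroup.toGroup hrel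
  let ha : Heis →* Multiplicative (ZMod 2) :=
    { toFun := fun z => ofAdd z.a, map_one' := rfl, map_mul' := fun _ _ => rfl }
  let hb : Heis →* Multiplicative (ZMod 2) :=
    { toFun := fun z => ofAdd z.b, map_one' := rfl, map_mul' := fun _ _ => rfl }
  have e1 : ha.comp H = chi Γ x := by
    apply PresentedGroup.ext
    intro v
    rw [chi_of]
    change ha (H (PresentedGroup.of v)) = _
    simp only [H, PresentedGroup.toGroup.of]
    rfl
  have e2 : hb.comp H = chi Γ y := by
    apply PresentedGroup.ext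
    intro v
    rw [chi_of]
    change hb (H (PresentedGroup.of v)) = _
    simp only [H, PresentedGroup.toGroup.of]
    rfl
  refine ⟨fun g => (H g).c, fun g g' => ?_⟩
  change (H (g * g')).c = _
  rw [← e1, ← e2, map_mul]
  rfl

lemma cupZero_iff (x y : V → ZMod 2) : CupZero (chi Γ x) (chi Γ y) ↔ B Γ x y = 0 :=
  ⟨fun h => by ext u v; exact B_zero_of_cupZero Γ h u v,
    fun h => cupZero_of_B Γ fun u v => by rw [h]; rfl⟩

end Group

section Transfer

variable {Γ : MixedGraph V} {Γ' : MixedGraph V'}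

/-- The linear map on `Hom(T, ℤ/2)` induced by an isomorphism of groups. -/
def pull (f : T Γ' ≃* T Γ) (x : V → ZMod 2) : V' → ZMod 2 :=
  fun v => toAdd (chi Γ x (f (PresentedGroup.of v)))

lemma chi_pull (f : T Γ' ≃* T Γ) (x : V → ZMod 2) :
    chi Γ' (pull f x) = (chi Γ x).comp f.toMonoidHom := by
  rw [eq_chi Γ' ((chi Γ x).comp f.toMonoidHom)]
  rfl

lemma chi_inj {x y : V → ZMod 2} (h : chi Γ x = chi Γ y) : x = y := by
  ext v
  have := congrArg (fun α => toAdd (α (PresentedGroup.of v))) h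
  simpa [chi_of] using this

lemma pull_pull (f : T Γ' ≃* T Γ) (x : V → ZMod 2) : pull f.symm (pull f x) = x := by
  apply chi_inj (Γ := Γ)
  rw [chi_pull, chi_pull]
  ext g
  simp

lemma chi_add (x y : V → ZMod 2) : chi Γ (x + y) = chi Γ x * chi Γ y := by
  apply PresentedGroup.ext
  intro v
  rw [MonoidHom.mul_apply, chi_of, chi_of, chi_of]
  rfl

lemma pull_add (f : T Γ' ≃* T Γ) (x y : V → ZMod 2) : pull f (x + y) = pull f x + pull f y := by
  ext v
  unfold pull
  rw [chi_add, MonoidHom.mul_apply, toAdd_mul]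
  rfl

/-- The induced linear equivalence. -/
def pullEquiv (f : T Γ' ≃* T Γ) : (V → ZMod 2) ≃ₗ[ZMod 2] (V' → ZMod 2) where
  toFun := pull f
  invFun := pull f.symm
  map_add' := pull_add f
  map_smul' := by
    intro m x
    have : m = 0 ∨ m = 1 := by revert m; decide
    rcases this with rfl | rfl
    · have h0 : pull f (0 : V → ZMod 2) = 0 := by
        have := pull_add f (0 : V → ZMod 2) 0
        rw [add_zero] at this
        exact left_eq_add.1 this
      simp [h0]
    · simp
  left_inv := pull_pull f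
  right_inv := fun x => by
    have := pull_pull f.symm x
    rwa [MulEquiv.symm_symm] at this

lemma cupZero_comp {H K : Type} [Group H] [Group K] (f : H ≃* K)
    (α β : K →* Multiplicative (ZMod 2)) :
    CupZero (α.comp f.toMonoidHom) (β.comp f.toMonoidHom) ↔ CupZero α β := by
  constructor
  · rintro ⟨h, hh⟩
    refine ⟨fun g => h (f.symm g), fun g g' => ?_⟩
    change h (f.symm (g * g')) = _
    rw [map_mul, hh]
    simp
  · rintro ⟨h, hh⟩
    refine ⟨fun g => h (f g), fun g g' => ?_⟩
    change h (f (g * g')) = _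
    rw [map_mul, hh]
    rfl

lemma B_pull (f : T Γ' ≃* T Γ) (x y : V → ZMod 2) :
    B Γ' (pullEquiv f x) (pullEquiv f y) = 0 ↔ B Γ x y = 0 := by
  rw [← cupZero_iff, ← cupZero_iff]
  change CupZero (chi Γ' (pull f x)) (chi Γ' (pull f y)) ↔ _
  rw [chi_pull, chi_pull, cupZero_comp]

end Transfer

/-! ### Annihilators -/

section Finite

open Classical Module

set_option linter.unusedSectionVars false

variable [Fintype V] [Fintype V']

/-- The basis vector of a vertex. -/
noncomputable def ex (v : V) : V → ZMod 2 := fun w => if w = v then 1 else 0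

lemma ex_same (v : V) : ex v v = 1 := if_pos rfl

lemma ex_ne {v w : V} (h : w ≠ v) : ex v w = 0 := if_neg h

lemma z2 (a : ZMod 2) : a = 0 ∨ a = 1 := by revert a; decide

lemma z2_ne {a : ZMod 2} (h : a ≠ 0) : a = 1 := (z2 a).resolve_left h

lemma z2_add (a : ZMod 2) : a + a = 0 := CharTwo.add_self_eq_zero a

section One

variable (Γ : MixedGraph V)

lemma B_add_right (x y z : V → ZMod 2) : B Γ x (y + z) = B Γ x y + B Γ x z := by
  ext u v
  simp only [B, Pi.add_apply]
  split_ifs <;> ring

lemma B_smul_right (c : ZMod 2) (x y : V → ZMod 2) : B Γ x (c • y) = c • B Γ x y := by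
  ext u v
  simp only [B, Pi.smul_apply, smul_eq_mul]
  split_ifs <;> ring

/-- `B` as a linear map in the second variable. -/
noncomputable def Bl (x : V → ZMod 2) : (V → ZMod 2) →ₗ[ZMod 2] (V → V → ZMod 2) where
  toFun := B Γ x
  map_add' := B_add_right Γ x
  map_smul' := fun c y => B_smul_right Γ c x y

/-- The annihilator of `x`. -/
noncomputable def Ann (x : V → ZMod 2) : Submodule (ZMod 2) (V → ZMod 2) := LinearMap.ker (Bl Γ x)

lemma mem_Ann {x y : V → ZMod 2} : y ∈ Ann Γ x ↔ B Γ x y = 0 := LinearMap.mem_ker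

/-- Number of neighbours. -/
noncomputable def deg (v : V) : ℕ := Fintype.card {w // Γ.G.Adj v w}

/-- The functional family `y ↦ (y w - x w * y v)` over the neighbours `w` of `v`. -/
noncomputable def ell (x : V → ZMod 2) (v : V) :
    (V → ZMod 2) →ₗ[ZMod 2] ({w // Γ.G.Adj v w} → ZMod 2) where
  toFun y := fun w => y w.1 - x w.1 * y v
  map_add' y z := by ext w; simp only [Pi.add_apply]; ring
  map_smul' c y := by
    ext w
    simp only [Pi.smul_apply, smul_eq_mul, RingHom.id_apply]
    ring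

lemma ell_surj (x : V → ZMod 2) (v : V) : Function.Surjective (ell Γ x v) := by
  intro t
  refine ⟨fun w => if h : Γ.G.Adj v w then t ⟨w, h⟩ else 0, ?_⟩
  ext w
  change (if h : Γ.G.Adj v w.1 then t ⟨w.1, h⟩ else 0)
    - x w.1 * (if h : Γ.G.Adj v v then t ⟨v, h⟩ else 0) = t w
  rw [dif_pos w.2, dif_neg (Γ.G.irrefl)]
  ring

lemma finrank_ell (x : V → ZMod 2) (v : V) :
    finrank (ZMod 2) (LinearMap.ker (ell Γ x v)) + deg Γ v = Fintype.card V := by
  have h := LinearMap.finrank_range_add_finrank_ker (ell Γ x v)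
  rw [LinearMap.range_eq_top.2 (ell_surj Γ x v), finrank_top, finrank_fintype_fun_eq_card,
    finrank_fintype_fun_eq_card] at h
  unfold deg
  omega

/-- `x` vanishes at all origins of directed edges. -/
def InK (x : V → ZMod 2) : Prop := ∀ u w, Γ.dir u w → x u = 0

lemma inK_iff (x : V → ZMod 2) : InK Γ x ↔ B Γ x x = 0 := by
  constructor
  · intro h
    ext u v
    simp only [B, Pi.zero_apply]
    split_ifs with h1 h2 h3 h3
    · exact absurd h3 (Γ.dir_asymm h2)
    · rw [h _ _ h2]; ring
    · rw [h _ _ h3]; ring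
    · have := z2_add (x u * x v)
      linear_combination this
    · rfl
  · intro h u w hd
    have h1 := congrFun (congrFun h u) w
    simp only [B, Pi.zero_apply] at h1
    rw [if_pos (Γ.dir_adj hd), if_pos hd, if_neg (Γ.dir_asymm hd)] at h1
    have := z2_add (x u * x w)
    rcases z2 (x u) with h2 | h2
    · exact h2
    · rw [h2] at h1 this
      exfalso
      have : (1 : ZMod 2) = 0 := by linear_combination h1 - this
      exact absurd this (by decide)

lemma ann_le {x : V → ZMod 2} (hx : InK Γ x) {v : V} (hv : x v = 1) :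
    Ann Γ x ≤ LinearMap.ker (ell Γ x v) := by
  intro y hy
  rw [mem_Ann] at hy
  rw [LinearMap.mem_ker]
  ext ⟨w, hw⟩
  change y w - x w * y v = 0
  have h1 := congrFun (congrFun hy v) w
  simp only [B, Pi.zero_apply] at h1
  rw [if_pos hw, if_neg (fun h => by rw [hx _ _ h] at hv; exact absurd hv (by decide)), hv] at h1
  split_ifs at h1 with h2
  · rw [hx _ _ h2] at h1 ⊢
    linear_combination h1
  · have := z2_add (x w * y v)
    linear_combination h1 - this

lemma ell_zero_le {v : V} (hv : ∀ w, ¬ Γ.dir v w) :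
    LinearMap.ker (ell Γ 0 v) ≤ Ann Γ (ex v) := by
  intro y hy
  rw [LinearMap.mem_ker] at hy
  have hy' : ∀ w, Γ.G.Adj v w → y w = 0 := by
    intro w hw
    have := congrFun hy ⟨w, hw⟩
    change y w - 0 * y v = 0 at this
    linear_combination this
  rw [mem_Ann]
  ext s t
  simp only [B, Pi.zero_apply]
  by_cases h : Γ.G.Adj s t
  · rw [if_pos h]
    by_cases hs : s = v
    · subst hs
      have ht : t ≠ s := h.ne'
      rw [if_neg (hv t), ex_same, ex_ne ht, hy' t h]
      split_ifs <;> ring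
    · by_cases ht : t = v
      · subst ht
        rw [if_neg (hv s), ex_same, ex_ne hs, hy' s h.symm]
        split_ifs <;> ring
      · rw [ex_ne hs, ex_ne ht]
        split_ifs <;> ring
  · rw [if_neg h]

/-- If `Ann x` is as large as possible then every vertex of the support is dominated. -/
lemma dominated {x : V → ZMod 2} (hx : InK Γ x) {v : V} (hv : x v = 1)
    (hr : Fintype.card V ≤ finrank (ZMod 2) (Ann Γ x) + deg Γ v) {z : V} (hz : x z = 1) {w : V}
    (hw : Γ.G.Adj z w) : w = v ∨ Γ.G.Adj v w := by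
  by_contra hc
  push Not at hc
  obtain ⟨h1, h2⟩ := hc
  have h3 : Ann Γ x = LinearMap.ker (ell Γ x v) := by
    apply Submodule.eq_of_le_of_finrank_le (ann_le Γ hx hv)
    have := finrank_ell Γ x v
    omega
  have h4 : ex w ∈ Ann Γ x := by
    rw [h3, LinearMap.mem_ker]
    ext ⟨w', hw'⟩
    change ex w w' - x w' * ex w v = 0
    have e1 : w' ≠ w := fun h => h2 (h ▸ hw')
    rw [ex_ne e1, ex_ne (Ne.symm h1)]
    ring
  rw [mem_Ann] at h4
  have h5 := congrFun (congrFun h4 z) w
  simp only [B, Pi.zero_apply] at h5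
  rw [if_pos hw, ex_same, ex_ne hw.ne,
    if_neg (fun h => by rw [hx _ _ h] at hz; exact absurd hz (by decide)), hz] at h5
  split_ifs at h5 with h6
  · rw [hx _ _ h6] at h5
    have : (1 : ZMod 2) = 0 := by linear_combination h5
    exact absurd this (by decide)
  · have : (1 : ZMod 2) = 0 := by linear_combination h5
    exact absurd this (by decide)

lemma B_congr {x x' y y' : V → ZMod 2} (hx : ∀ u w, Γ.G.Adj u w → x u = x' u)
    (hy : ∀ u w, Γ.G.Adj u w → y u = y' u) : B Γ x y = B Γ x' y' := by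
  ext u v
  simp only [B]
  by_cases h : Γ.G.Adj u v
  · rw [hx u v h, hx v u h.symm, hy u v h, hy v u h.symm]
  · rw [if_neg h, if_neg h]

/-- An element that annihilates everything vanishes at all non-isolated vertices. -/
lemma vanish_of_ann {x : V → ZMod 2} (h : ∀ y, B Γ x y = 0) {u w : V} (huw : Γ.G.Adj u w) :
    x u = 0 := by
  have h1 := congrFun (congrFun (h (ex w)) u) w
  have h2 := congrFun (congrFun (h (ex u)) u) w
  simp only [B, Pi.zero_apply] at h1 h2
  rw [if_pos huw, ex_same, ex_ne huw.ne] at h1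
  rw [if_pos huw, ex_same, ex_ne huw.ne'] at h2
  by_cases h3 : Γ.dir u w
  · rw [if_pos h3, if_neg (Γ.dir_asymm h3)] at h1
    linear_combination h1
  · rw [if_neg h3] at h1 h2
    split_ifs at h1 h2 with h4
    · linear_combination h1 - h2
    · linear_combination h1

lemma ann_of_vanish {x : V → ZMod 2} (h : ∀ u w, Γ.G.Adj u w → x u = 0) (y : V → ZMod 2) :
    B Γ x y = 0 := by
  ext u v
  simp only [B, Pi.zero_apply]
  by_cases h1 : Γ.G.Adj u v
  · rw [if_pos h1, h u v h1, h v u h1.symm]
    split_ifs <;> ring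
  · rw [if_neg h1]

lemma B_ex_ex {v w : V} (hne : v ≠ w) (h : ¬ Γ.G.Adj v w) : B Γ (ex v) (ex w) = 0 := by
  ext s t
  simp only [B, Pi.zero_apply]
  by_cases h1 : Γ.G.Adj s t
  · rw [if_pos h1]
    by_cases hs : s = v
    · subst hs
      have ht : t ≠ s := h1.ne'
      have ht2 : t ≠ w := fun e => h (e ▸ h1)
      rw [ex_ne ht2, ex_ne ht, ex_ne hne]
      split_ifs <;> ring
    · by_cases ht : t = v
      · subst ht
        have hs2 : s ≠ w := fun e => h (e ▸ h1.symm)
        rw [ex_ne hs, ex_ne hs2, ex_ne hne]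
        split_ifs <;> ring
      · rw [ex_ne hs, ex_ne ht]
        split_ifs <;> ring
  · rw [if_neg h1]

end One

/-! ### The comparison of underlying graphs -/

/-- A graph as a mixed graph without directed edges. -/
def und (G : SimpleGraph V) : MixedGraph V :=
  ⟨G, fun _ _ => False, fun h => h.elim, fun h => h.elim⟩

lemma und_inK (G : SimpleGraph V) (x : V → ZMod 2) : InK (und G) x := fun _ _ h => h.elim

lemma ex_expand (y : V → ZMod 2) : y = ∑ w, y w • ex w := by
  ext z
  rw [Finset.sum_apply, Finset.sum_eq_single z]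
  · simp [ex_same]
  · intro b _ hb
    simp [ex_ne hb.symm]
  · simp

lemma map_expand (φ : (V → ZMod 2) ≃ₗ[ZMod 2] (V' → ZMod 2)) (y : V → ZMod 2) :
    φ y = ∑ w, y w • φ (ex w) := by
  conv_lhs => rw [ex_expand y, map_sum]
  simp_rw [map_smul]

lemma card_eq (φ : (V → ZMod 2) ≃ₗ[ZMod 2] (V' → ZMod 2)) : Fintype.card V = Fintype.card V' := by
  have := LinearEquiv.finrank_eq φ
  rwa [finrank_fintype_fun_eq_card, finrank_fintype_fun_eq_card] at this

/-- The hypothesis of the comparison of graphs: non-adjacent vertices are sent to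
classes with product zero. -/
def Hyp (G : SimpleGraph V) (G' : SimpleGraph V')
    (φ : (V → ZMod 2) ≃ₗ[ZMod 2] (V' → ZMod 2)) : Prop :=
  ∀ v w, v ≠ w → ¬ G.Adj v w → B (und G') (φ (ex v)) (φ (ex w)) = 0

section D

variable {G : SimpleGraph V} {G' : SimpleGraph V'} {φ : (V → ZMod 2) ≃ₗ[ZMod 2] (V' → ZMod 2)}

lemma map_le (H : Hyp G G' φ) (v : V) :
    (LinearMap.ker (ell (und G) 0 v)).map φ.toLinearMap ≤ Ann (und G') (φ (ex v)) := by
  rintro _ ⟨y, hy, rfl⟩
  have hy' : ∀ w, G.Adj v w → y w = 0 := by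
    intro w hw
    have := congrFun (LinearMap.mem_ker.1 hy) (⟨w, hw⟩ : {w // (und G).G.Adj v w})
    change y w - 0 * y v = 0 at this
    linear_combination this
  change φ y ∈ _
  rw [map_expand φ y]
  apply Submodule.sum_mem
  intro w _
  by_cases hw : G.Adj v w
  · rw [hy' w hw, zero_smul]
    exact Submodule.zero_mem _
  · apply Submodule.smul_mem
    rw [mem_Ann]
    by_cases hvw : v = w
    · subst hvw
      exact (inK_iff _ _).1 (und_inK G' _)
    · exact H v w hvw hw

lemma rank_ge (H : Hyp G G' φ) (v : V) :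
    Fintype.card V' ≤ finrank (ZMod 2) (Ann (und G') (φ (ex v))) + deg (und G) v := by
  have h1 := finrank_ell (und G) 0 v
  have h2 := Submodule.finrank_mono (map_le H v)
  have h3 : finrank (ZMod 2) ((LinearMap.ker (ell (und G) 0 v)).map φ.toLinearMap)
      = finrank (ZMod 2) (LinearMap.ker (ell (und G) 0 v)) :=
    LinearEquiv.finrank_map_eq φ _
  have h4 := card_eq φ
  omega

lemma deg_le (H : Hyp G G' φ) {v : V} {z : V'} (hz : φ (ex v) z = 1) :
    deg (und G') z ≤ deg (und G) v := by
  have h1 := rank_ge H v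
  have h2 := Submodule.finrank_mono (ann_le (und G') (und_inK G' _) hz)
  have h3 := finrank_ell (und G') (φ (ex v)) z
  omega

lemma exists_perm (φ : (V → ZMod 2) ≃ₗ[ZMod 2] (V' → ZMod 2)) :
    ∃ σ : V ≃ V', ∀ v, φ (ex v) (σ v) = 1 := by
  obtain ⟨ρ⟩ := Fintype.card_eq.1 (card_eq φ)
  let L : (V → ZMod 2) ≃ₗ[ZMod 2] (V → ZMod 2) := φ.trans (LinearEquiv.funCongrLeft (ZMod 2) (ZMod 2) ρ)
  have h1 : (LinearMap.toMatrix' L.toLinearMap).det ≠ 0 := by
    rw [LinearMap.det_toMatrix']
    exact (LinearEquiv.isUnit_det' L).ne_zero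
  rw [Matrix.det_apply] at h1
  obtain ⟨σ, -, hσ⟩ := Finset.exists_ne_zero_of_sum_ne_zero h1
  have h2 : ∏ i, LinearMap.toMatrix' L.toLinearMap (σ i) i ≠ 0 := by
    intro h
    rw [h, smul_zero] at hσ
    exact hσ rfl
  rw [Finset.prod_ne_zero_iff] at h2
  refine ⟨σ.trans ρ, fun v => ?_⟩
  have h3 := h2 v (Finset.mem_univ v)
  apply z2_ne
  rw [LinearMap.toMatrix'_apply] at h3
  have h5 : (Pi.single v 1 : V → ZMod 2) = ex v := by
    ext w
    simp [ex, Pi.single_apply]
  rw [h5] at h3
  exact h3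

lemma sum_deg (σ : V ≃ V') : ∑ v, deg (und G') (σ v) = ∑ v, deg (und G') v :=
  Equiv.sum_comp σ _

lemma deg_eq (H : Hyp G G' φ) (H' : Hyp G' G φ.symm) {σ : V ≃ V'}
    (hσ : ∀ v, φ (ex v) (σ v) = 1) (v : V) : deg (und G') (σ v) = deg (und G) v := by
  obtain ⟨σ', hσ'⟩ := exists_perm φ.symm
  have h1 : ∀ v ∈ Finset.univ, deg (und G') (σ v) ≤ deg (und G) v := fun v _ => deg_le H (hσ v)
  have h2 : ∀ v ∈ Finset.univ, deg (und G) (σ' v) ≤ deg (und G') v := fun v _ => deg_le H' (hσ' v)
  have h3 := Finset.sum_le_sum h1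
  have h4 := Finset.sum_le_sum h2
  rw [sum_deg] at h3 h4
  have h5 : ∑ v, deg (und G') (σ v) = ∑ v, deg (und G) v := by
    rw [sum_deg]
    exact le_antisymm h3 h4
  exact (Finset.sum_eq_sum_iff_of_le h1).1 h5 v (Finset.mem_univ v)

lemma ann_eq (Γ : MixedGraph V) {x : V → ZMod 2} (hx : InK Γ x) {v : V} (hv : x v = 1)
    (hr : Fintype.card V ≤ finrank (ZMod 2) (Ann Γ x) + deg Γ v) :
    Ann Γ x = LinearMap.ker (ell Γ x v) := by
  apply Submodule.eq_of_le_of_finrank_le (ann_le Γ hx hv)
  have := finrank_ell Γ x v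
  omega

/-- No vertex of full degree lies in the support of `φ (ex v)` but not of `φ (ex w)`. -/
lemma no_full (H : Hyp G G' φ) {v w : V} (hne : v ≠ w) (hadj : ¬ G.Adj v w) {s t z : V'}
    (hst : G'.Adj s t) (hxs : φ (ex v) s = 1) (hxt : φ (ex v) t = 1) (hys : φ (ex w) s = 1)
    (hxz : φ (ex v) z = 1) (hyz : φ (ex w) z = 0)
    (hd : deg (und G) v ≤ deg (und G') z) : False := by
  have hr := rank_ge H v
  have hr' : Fintype.card V' ≤ finrank (ZMod 2) (Ann (und G') (φ (ex v))) + deg (und G') z := by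
    omega
  have h1 := dominated (und G') (und_inK G' _) hxz hr' hxs (w := t) hst
  have h2 := dominated (und G') (und_inK G' _) hxz hr' hxt (w := s) hst.symm
  have hsz : s ≠ z := by
    rintro rfl
    rw [hyz] at hys
    exact absurd hys (by decide)
  have hzs : (und G').G.Adj z s := h2.resolve_left hsz
  have h3 : φ (ex w) ∈ Ann (und G') (φ (ex v)) := by
    rw [mem_Ann]
    exact H v w hne hadj
  rw [ann_eq (und G') (und_inK G' _) hxz hr', LinearMap.mem_ker] at h3
  have h4 := congrFun h3 ⟨s, hzs⟩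
  change φ (ex w) s - φ (ex v) s * φ (ex w) z = 0 at h4
  rw [hys, hyz, mul_zero] at h4
  exact absurd h4 (by decide)

lemma nonadj (H : Hyp G G' φ) (H' : Hyp G' G φ.symm) {σ : V ≃ V'}
    (hσ : ∀ v, φ (ex v) (σ v) = 1) {v w : V} (hne : v ≠ w) (hadj : ¬ G.Adj v w) :
    ¬ G'.Adj (σ v) (σ w) := by
  intro hst
  have h1 := congrFun (congrFun (H v w hne hadj) (σ v)) (σ w)
  have hf : ∀ a b, ¬ (und G').dir a b := fun _ _ h => h.elim
  simp only [B, Pi.zero_apply] at h1
  rw [if_pos (show (und G').G.Adj (σ v) (σ w) from hst), if_neg (hf _ _), if_neg (hf _ _),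
    hσ v, hσ w] at h1
  have hxt : φ (ex v) (σ w) = 1 := by
    rcases z2 (φ (ex v) (σ w)) with h | h
    · rw [h] at h1
      have : (1 : ZMod 2) = 0 := by linear_combination h1
      exact absurd this (by decide)
    · exact h
  have hys : φ (ex w) (σ v) = 1 := by
    rcases z2 (φ (ex w) (σ v)) with h | h
    · rw [h] at h1
      have : (1 : ZMod 2) = 0 := by linear_combination h1
      exact absurd this (by decide)
    · exact h
  have dv := deg_eq H H' hσ v
  have dw := deg_eq H H' hσ w
  have d1 := deg_le H hxt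
  have d2 := deg_le H hys
  have hvw : deg (und G) v = deg (und G) w := by omega
  -- every vertex of the support of the sum has smaller degree
  have key : ∀ z, φ (ex v) z + φ (ex w) z = 1 → deg (und G') z < deg (und G) v := by
    intro z hz
    by_contra hd
    push Not at hd
    rcases z2 (φ (ex v) z) with hx | hx <;> rcases z2 (φ (ex w) z) with hy | hy
    · rw [hx, hy] at hz; exact absurd hz (by decide)
    · exact no_full H hne.symm (fun h => hadj h.symm) hst hys (hσ w) (hσ v) hy hx (by omega)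
    · exact no_full H hne hadj hst (hσ v) hxt hys hx hy hd
    · rw [hx, hy] at hz; exact absurd hz (by decide)
  have h2 : (ex v + ex w : V → ZMod 2) v = 1 := by
    rw [Pi.add_apply, ex_same, ex_ne hne, add_zero]
  have h3 : φ.symm (φ (ex v + ex w)) = ex v + ex w := φ.symm_apply_apply _
  rw [map_expand φ.symm] at h3
  have h4 := congrFun h3 v
  rw [h2, Finset.sum_apply] at h4
  have h5 : ∑ c, (φ (ex v + ex w) c • φ.symm (ex c)) v ≠ 0 := by rw [h4]; decide
  obtain ⟨z, -, hz⟩ := Finset.exists_ne_zero_of_sum_ne_zero h5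
  rw [Pi.smul_apply, smul_eq_mul, mul_ne_zero_iff] at hz
  have h6 := z2_ne hz.1
  rw [map_add, Pi.add_apply] at h6
  have h7 := key z h6
  have h8 := deg_le H' (z2_ne hz.2)
  omega

/-- The comparison of graphs. -/
theorem comparison (H : Hyp G G' φ) (H' : Hyp G' G φ.symm) :
    ∃ σ : V ≃ V', (∀ v, φ (ex v) (σ v) = 1) ∧ ∀ v w, G.Adj v w ↔ G'.Adj (σ v) (σ w) := by
  obtain ⟨σ, hσ⟩ := exists_perm φ
  refine ⟨σ, hσ, ?_⟩
  have h1 : ∀ v w, G'.Adj (σ v) (σ w) → G.Adj v w := by
    intro v w h
    by_contra hc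
    have hne : v ≠ w := by
      rintro rfl
      exact G'.irrefl h
    exact nonadj H H' hσ hne hc h
  intro v w
  refine ⟨fun h => ?_, h1 v w⟩
  -- the map from neighbours of `σ v` to neighbours of `v` is bijective
  let f : {z // (und G').G.Adj (σ v) z} → {z // (und G).G.Adj v z} := fun z =>
    ⟨σ.symm z.1, h1 v _ (by rw [Equiv.apply_symm_apply]; exact z.2)⟩
  have hf : Function.Injective f := by
    intro a b hab
    have := congrArg Subtype.val hab
    exact Subtype.ext (σ.symm.injective this)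
  have hcard : Fintype.card {z // (und G').G.Adj (σ v) z} = Fintype.card {z // (und G).G.Adj v z} :=
    deg_eq H H' hσ v
  have hbij := (Fintype.bijective_iff_injective_and_card f).2 ⟨hf, hcard⟩
  obtain ⟨z, hz⟩ := hbij.2 ⟨w, h⟩
  have h2 : σ.symm z.1 = w := congrArg Subtype.val hz
  have h3 : z.1 = σ w := by rw [← h2, Equiv.apply_symm_apply]
  rw [← h3]
  exact z.2

end D

/-! ### Negative vertices -/

section Om

variable (Γ : MixedGraph V)

/-- The indicator of the negative vertices. -/
noncomputable def om : V → ZMod 2 := fun v => if Negative Γ v then 1 else 0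

variable {Γ}

lemma om_spec (hs : Special Γ) (y : V → ZMod 2) : B Γ (y + om Γ) y = 0 := by
  have nn : ∀ {u v}, Γ.dir u v → om Γ u = 0 := by
    intro u v hd
    exact if_neg (fun hn => Γ.dir_asymm hd (hs u hn v (Γ.dir_adj hd).symm))
  have np : ∀ {u v}, Γ.dir u v → om Γ v = 1 := fun {u v} hd => if_pos ⟨u, hd⟩
  ext u v
  simp only [B, Pi.zero_apply, Pi.add_apply]
  by_cases hadj : Γ.G.Adj u v
  · rw [if_pos hadj]
    by_cases h1 : Γ.dir u v
    · rw [if_pos h1, if_neg (Γ.dir_asymm h1), nn h1, np h1]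
      generalize y u = a
      generalize y v = b
      revert a b
      decide
    · by_cases h2 : Γ.dir v u
      · rw [if_neg h1, if_pos h2, nn h2, np h2]
        generalize y u = a
        generalize y v = b
        revert a b
        decide
      · have hu : om Γ u = 0 := if_neg (fun hn => h2 (hs u hn v hadj.symm))
        have hv : om Γ v = 0 := if_neg (fun hn => h1 (hs v hn u hadj))
        rw [if_neg h1, if_neg h2, hu, hv]
        generalize y u = a
        generalize y v = b
        revert a b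
        decide
  · rw [if_neg hadj]

variable {o : V → ZMod 2}

lemma om_dir (ho : ∀ y, B Γ (y + o) y = 0) {u w : V} (h : Γ.dir u w) : o u = 0 ∧ o w = 1 := by
  have h1 := congrFun (congrFun (ho (ex w)) u) w
  have h2 := congrFun (congrFun (ho (ex u)) u) w
  have hadj := Γ.dir_adj h
  simp only [B, Pi.zero_apply, Pi.add_apply] at h1 h2
  rw [if_pos hadj, if_pos h, if_neg (Γ.dir_asymm h), ex_same, ex_ne hadj.ne] at h1
  rw [if_pos hadj, if_pos h, if_neg (Γ.dir_asymm h), ex_same, ex_ne hadj.ne'] at h2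
  revert h1 h2
  generalize o u = a
  generalize o w = b
  revert a b
  decide

lemma om_und (ho : ∀ y, B Γ (y + o) y = 0) {u w : V} (h : Γ.G.Adj u w) (hd : ¬ Γ.dir u w)
    (hd' : ¬ Γ.dir w u) : o u = 0 ∧ o w = 0 := by
  have h1 := congrFun (congrFun (ho (ex w)) u) w
  have h2 := congrFun (congrFun (ho (ex u)) u) w
  simp only [B, Pi.zero_apply, Pi.add_apply] at h1 h2
  rw [if_pos h, if_neg hd, if_neg hd', ex_same, ex_ne h.ne] at h1
  rw [if_pos h, if_neg hd, if_neg hd', ex_same, ex_ne h.ne'] at h2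
  revert h1 h2
  generalize o u = a
  generalize o w = b
  revert a b
  decide

lemma neg_of_om (ho : ∀ y, B Γ (y + o) y = 0) {w z : V} (h : Γ.G.Adj z w) (hw : o w = 1) :
    Γ.dir z w := by
  by_contra h1
  by_cases h2 : Γ.dir w z
  · rw [(om_dir ho h2).1] at hw
    exact absurd hw (by decide)
  · rw [(om_und ho h h1 h2).2] at hw
    exact absurd hw (by decide)

lemma om_of_neg (ho : ∀ y, B Γ (y + o) y = 0) {w : V} (h : Negative Γ w) : o w = 1 := by
  obtain ⟨z, hz⟩ := h
  exact (om_dir ho hz).2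

lemma special_of_om (ho : ∀ y, B Γ (y + o) y = 0) : Special Γ :=
  fun _ hx _ hz => neg_of_om ho hz (om_of_neg ho hx)

lemma om_expand : om Γ = ∑ a : {a // Negative Γ a}, ex a.1 := by
  ext z
  rw [Finset.sum_apply]
  by_cases hz : Negative Γ z
  · rw [Finset.sum_eq_single ⟨z, hz⟩]
    · rw [ex_same]
      exact if_pos hz
    · intro b _ hb
      exact ex_ne (fun h => hb (Subtype.ext h.symm))
    · intro h
      exact absurd (Finset.mem_univ _) h
  · rw [Finset.sum_eq_zero]
    · exact if_neg hz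
    · intro b _
      exact ex_ne (fun h => hz (h ▸ b.2))

end Om

/-- The equivalence preserves vanishing of products. -/
def Pres (Γ : MixedGraph V) (Γ' : MixedGraph V')
    (e : (V → ZMod 2) ≃ₗ[ZMod 2] (V' → ZMod 2)) : Prop :=
  ∀ x y, B Γ' (e x) (e y) = 0 ↔ B Γ x y = 0

section Step

variable {Γ : MixedGraph V} {Γ' : MixedGraph V'} {e : (V → ZMod 2) ≃ₗ[ZMod 2] (V' → ZMod 2)}

lemma Pres.symm (he : Pres Γ Γ' e) : Pres Γ' Γ e.symm := by
  intro x y
  rw [← he, LinearEquiv.apply_symm_apply, LinearEquiv.apply_symm_apply]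

lemma ann_map (he : Pres Γ Γ' e) (x : V → ZMod 2) :
    finrank (ZMod 2) (Ann Γ' (e x)) = finrank (ZMod 2) (Ann Γ x) := by
  have h : Ann Γ' (e x) = (Ann Γ x).map e.toLinearMap := by
    ext y
    constructor
    · intro hy
      refine ⟨e.symm y, ?_, e.apply_symm_apply y⟩
      change _ ∈ Ann Γ x
      rw [mem_Ann] at hy ⊢
      rw [← he, e.apply_symm_apply]
      exact hy
    · rintro ⟨z, hz, rfl⟩
      have hz' : z ∈ Ann Γ x := hz
      rw [mem_Ann] at hz' ⊢
      exact (he _ _).2 hz'
  rw [h]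
  exact LinearEquiv.finrank_map_eq e _

lemma inK_map (he : Pres Γ Γ' e) (x : V → ZMod 2) : InK Γ' (e x) ↔ InK Γ x := by
  rw [inK_iff, inK_iff, he]

lemma exists_coord (e : (V → ZMod 2) ≃ₗ[ZMod 2] (V' → ZMod 2)) (v : V) :
    ∃ v', e (ex v) v' = 1 ∧ e.symm (ex v') v = 1 := by
  have h1 : e.symm (e (ex v)) = ex v := e.symm_apply_apply _
  rw [map_expand e.symm] at h1
  have h2 := congrFun h1 v
  rw [ex_same, Finset.sum_apply] at h2
  have h3 : ∑ c, (e (ex v) c • e.symm (ex c)) v ≠ 0 := by rw [h2]; decide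
  obtain ⟨z, -, hz⟩ := Finset.exists_ne_zero_of_sum_ne_zero h3
  rw [Pi.smul_apply, smul_eq_mul, mul_ne_zero_iff] at hz
  exact ⟨z, z2_ne hz.1, z2_ne hz.2⟩

/-- The partner of a negative vertex. -/
lemma partner (hs : Special Γ) (hn : NoSatellites Γ) (he : Pres Γ Γ' e) {a : V}
    (ha : Negative Γ a) : ∃ v' : V', e.symm (ex v') a = 1 ∧
      ∀ z, z ≠ a → ∀ w, Γ.G.Adj z w → e.symm (ex v') z = 0 := by
  obtain ⟨v', h1, h2⟩ := exists_coord e a
  refine ⟨v', h2, ?_⟩
  have ho : ∀ w, ¬ Γ.dir a w := fun w hd =>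
    Γ.dir_asymm hd (hs a ha w (Γ.dir_adj hd).symm)
  have hK : InK Γ (ex a) := fun u w hd => ex_ne (fun h => ho w (h ▸ hd))
  have hK' : InK Γ' (e (ex a)) := (inK_map he _).2 hK
  have ho' : ∀ w, ¬ Γ'.dir v' w := fun w hd => by
    rw [hK' _ _ hd] at h1
    exact absurd h1 (by decide)
  have hKe : InK Γ' (ex v') := fun u w hd => ex_ne (fun h => ho' w (h ▸ hd))
  have hKf : InK Γ (e.symm (ex v')) := (inK_map he.symm _).2 hKe
  have hc := card_eq e
  have r1 := finrank_ell Γ 0 a
  have r2 := Submodule.finrank_mono (ell_zero_le Γ ho)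
  have r3 := ann_map he (ex a)
  have r4 := Submodule.finrank_mono (ann_le Γ' hK' h1)
  have r5 := finrank_ell Γ' (e (ex a)) v'
  have r6 := finrank_ell Γ' 0 v'
  have r7 := Submodule.finrank_mono (ell_zero_le Γ' ho')
  have r8 := ann_map he.symm (ex v')
  have hr : Fintype.card V ≤ finrank (ZMod 2) (Ann Γ (e.symm (ex v'))) + deg Γ a := by omega
  intro z hz w hw
  by_contra hf
  have hf1 := z2_ne hf
  have hdom := fun {w} (hw : Γ.G.Adj z w) => dominated Γ hKf h2 hr hf1 hw
  have hza : ¬ Γ.G.Adj z a := by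
    intro h
    have := hKf z a (hs a ha z h)
    exact hf this
  have hN : ∀ y, Γ.G.Adj z y → Γ.G.Adj a y := by
    intro y hy
    rcases hdom hy with rfl | h
    · exact absurd hy hza
    · exact h
  apply hn a (hs a ha) z
  refine ⟨?_, hN⟩
  have hwalk : Γ.G.dist a z ≤ 2 :=
    SimpleGraph.dist_le (SimpleGraph.Walk.cons (hN w hw) (SimpleGraph.Walk.cons hw.symm
      SimpleGraph.Walk.nil))
  have hreach : Γ.G.Reachable a z := (hN w hw).reachable.trans hw.symm.reachable
  have h0 : Γ.G.dist a z ≠ 0 := by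
    intro h
    rw [hreach.dist_eq_zero_iff] at h
    exact hz h.symm
  have h01 : Γ.G.dist a z ≠ 1 := by
    intro h
    rw [SimpleGraph.dist_eq_one_iff_adj] at h
    exact hza h.symm
  omega

/-- After a transvection supported on isolated vertices, negative vertices are sent to basis
vectors. -/
lemma straighten (hs : Special Γ) (hn : NoSatellites Γ) (he : Pres Γ Γ' e) :
    ∃ (e1 : (V → ZMod 2) ≃ₗ[ZMod 2] (V' → ZMod 2)) (π : {a // Negative Γ a} → V'),
      Pres Γ Γ' e1 ∧ ∀ a, e1 (ex a.1) = ex (π a) := by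
  choose π hπ1 hπ2 using fun a : {a // Negative Γ a} => partner hs hn he a.2
  let i : {a // Negative Γ a} → V → ZMod 2 := fun a => e.symm (ex (π a)) - ex a.1
  have hi : ∀ a z w, Γ.G.Adj z w → i a z = 0 := by
    intro a z w hzw
    change e.symm (ex (π a)) z - ex a.1 z = 0
    by_cases hz : z = a.1
    · rw [hz, ex_same, hπ1, sub_self]
    · rw [ex_ne hz, hπ2 a z hz w hzw, sub_self]
  let τ : (V → ZMod 2) →ₗ[ZMod 2] (V → ZMod 2) :=
    LinearMap.id + ∑ a : {a // Negative Γ a}, (LinearMap.proj a.1).smulRight (i a)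
  have hτ : ∀ y, τ y = y + ∑ a : {a // Negative Γ a}, y a.1 • i a := by
    intro y
    simp [τ, LinearMap.sum_apply]
  have hτ1 : ∀ y z w, Γ.G.Adj z w → τ y z = y z := by
    intro y z w hzw
    rw [hτ, Pi.add_apply, Finset.sum_apply, Finset.sum_eq_zero, add_zero]
    intro a _
    rw [Pi.smul_apply, hi a z w hzw, smul_zero]
  have hneg : ∀ a : {a // Negative Γ a}, ∃ w, Γ.G.Adj a.1 w := by
    rintro ⟨a, y, hy⟩
    exact ⟨y, (Γ.dir_adj hy).symm⟩
  have hτ2 : Function.Involutive τ := by
    intro y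
    rw [hτ (τ y)]
    have h1 : ∑ a : {a // Negative Γ a}, τ y a.1 • i a
        = ∑ a : {a // Negative Γ a}, y a.1 • i a := by
      apply Finset.sum_congr rfl
      intro a _
      obtain ⟨w, hw⟩ := hneg a
      rw [hτ1 y a.1 w hw]
    rw [h1, hτ y, add_assoc]
    have h2 : ∀ t : V → ZMod 2, t + t = 0 := fun t => by
      ext z
      exact z2_add _
    rw [h2, add_zero]
  refine ⟨(LinearEquiv.ofInvolutive τ hτ2).trans e, π, ?_, ?_⟩
  · intro x y
    change B Γ' (e (τ x)) (e (τ y)) = 0 ↔ _
    rw [he, B_congr Γ (fun u w h => hτ1 x u w h) (fun u w h => hτ1 y u w h)]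
  · intro a
    change e (τ (ex a.1)) = _
    have h1 : τ (ex a.1) = e.symm (ex (π a)) := by
      rw [hτ, Finset.sum_eq_single a]
      · rw [ex_same, one_smul]
        change _ + (e.symm (ex (π a)) - ex a.1) = _
        abel
      · intro b _ hb
        rw [ex_ne (fun h => hb (Subtype.ext h)), zero_smul]
      · intro h
        exact absurd (Finset.mem_univ _) h
    rw [h1, e.apply_symm_apply]

/-- The negative vertices of the second graph are the partners. -/
lemma negative_iff (hs : Special Γ) (he : Pres Γ Γ' e) {π : {a // Negative Γ a} → V'}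
    (hπ : ∀ a, e (ex a.1) = ex (π a)) :
    Special Γ' ∧ ∀ w, Negative Γ' w ↔ ∃ a, π a = w := by
  have ho : ∀ y, B Γ' (y + e (om Γ)) y = 0 := by
    intro y
    obtain ⟨x, rfl⟩ := e.surjective y
    rw [← map_add, he]
    exact om_spec hs x
  have heo : e (om Γ) = ∑ a, ex (π a) := by
    rw [om_expand, map_sum]
    exact Finset.sum_congr rfl fun a _ => hπ a
  have hinj : Function.Injective π := by
    intro a b hab
    have h1 : e (ex a.1) = e (ex b.1) := by rw [hπ, hπ, hab]
    have h2 := congrFun (e.injective h1) a.1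
    rw [ex_same] at h2
    by_contra hne
    rw [ex_ne (fun h => hne (Subtype.ext h))] at h2
    exact absurd h2 (by decide)
  have hiso : ∀ a, ∃ w, Γ'.G.Adj (π a) w := by
    intro a
    by_contra hc
    push Not at hc
    have h1 : ∀ u w, Γ'.G.Adj u w → ex (π a) u = 0 := by
      intro u w huw
      exact ex_ne (fun h => hc w (h ▸ huw))
    have h2 : ∀ y, B Γ (ex a.1) y = 0 := by
      intro y
      rw [← he, hπ]
      exact ann_of_vanish Γ' h1 _
    obtain ⟨y, hy⟩ := a.2
    have h3 := vanish_of_ann Γ h2 (Γ.dir_adj hy).symm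
    rw [ex_same] at h3
    exact absurd h3 (by decide)
  refine ⟨special_of_om ho, fun w => ⟨fun hw => ?_, ?_⟩⟩
  · have h1 := om_of_neg ho hw
    by_contra hc
    push Not at hc
    rw [heo, Finset.sum_apply, Finset.sum_eq_zero] at h1
    · exact absurd h1 (by decide)
    · intro a _
      exact ex_ne (fun h => hc a h.symm)
  · rintro ⟨a, rfl⟩
    obtain ⟨w, hw⟩ := hiso a
    refine ⟨w, neg_of_om ho hw.symm ?_⟩
    rw [heo, Finset.sum_apply, Finset.sum_eq_single a]
    · exact ex_same _
    · intro b _ hb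
      exact ex_ne (fun h => hb (hinj h.symm))
    · intro h
      exact absurd (Finset.mem_univ _) h

end Step

section Fix

variable (Γ : MixedGraph V) (Γ' : MixedGraph V') (e : (V → ZMod 2) ≃ₗ[ZMod 2] (V' → ZMod 2))
  (π : {a // Negative Γ a} ≃ {a // Negative Γ' a})

/-- The block diagonal part of `e`. -/
noncomputable def fx : (V → ZMod 2) →ₗ[ZMod 2] (V' → ZMod 2) where
  toFun y := fun v' => if h : Negative Γ' v' then y (π.symm ⟨v', h⟩).1 else e y v'
  map_add' x y := by
    ext v'
    by_cases h : Negative Γ' v'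
    · simp [h]
    · simp [h]
  map_smul' c y := by
    ext v'
    by_cases h : Negative Γ' v'
    · simp [h]
    · simp [h]

variable {Γ Γ' e π}

lemma fx_neg (y : V → ZMod 2) {v' : V'} (h : Negative Γ' v') :
    fx Γ Γ' e π y v' = y (π.symm ⟨v', h⟩).1 := dif_pos h

lemma fx_pos (y : V → ZMod 2) {v' : V'} (h : ¬ Negative Γ' v') :
    fx Γ Γ' e π y v' = e y v' := dif_neg h

lemma hsymm (h : ∀ a, e (ex a.1) = ex (π a).1) (a) : e.symm (ex a.1) = ex (π.symm a).1 := by
  rw [LinearEquiv.symm_apply_eq, h, Equiv.apply_symm_apply]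

lemma fx_fx (h : ∀ a, e (ex a.1) = ex (π a).1) (y : V → ZMod 2) :
    fx Γ' Γ e.symm π.symm (fx Γ Γ' e π y) = y := by
  ext v
  by_cases hv : Negative Γ v
  · rw [fx_neg _ hv]
    change fx Γ Γ' e π y (π ⟨v, hv⟩).1 = _
    rw [fx_neg _ (π ⟨v, hv⟩).2]
    simp
  · rw [fx_pos _ hv]
    have h1 : fx Γ Γ' e π y = e y + (fx Γ Γ' e π y - e y) := by abel
    rw [h1, map_add, e.symm_apply_apply, Pi.add_apply, map_expand e.symm, Finset.sum_apply,
      Finset.sum_eq_zero, add_zero]
    intro c _
    rw [Pi.smul_apply]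
    by_cases hc : Negative Γ' c
    · have h2 := hsymm h ⟨c, hc⟩
      change e.symm (ex c) = _ at h2
      have h3 : v ≠ (π.symm ⟨c, hc⟩).1 := fun h3 => hv (by rw [h3]; exact (π.symm ⟨c, hc⟩).2)
      rw [h2, ex_ne h3, smul_zero]
    · rw [Pi.sub_apply, fx_pos _ hc, sub_self, zero_smul]

/-- The block diagonal part as an equivalence. -/
noncomputable def fxEquiv (h : ∀ a, e (ex a.1) = ex (π a).1) :
    (V → ZMod 2) ≃ₗ[ZMod 2] (V' → ZMod 2) :=
  { fx Γ Γ' e π with
    invFun := fx Γ' Γ e.symm π.symm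
    left_inv := fx_fx h
    right_inv := fun y => fx_fx (e := e.symm) (π := π.symm) (hsymm h) y }

lemma fx_hyp (hs' : Special Γ') (he : Pres Γ Γ' e) (h : ∀ a, e (ex a.1) = ex (π a).1) {v w : V}
    (hne : v ≠ w) (hadj : ¬ Γ.G.Adj v w) :
    B (und Γ'.G) (fx Γ Γ' e π (ex v)) (fx Γ Γ' e π (ex w)) = 0 := by
  have hB : B Γ' (e (ex v)) (e (ex w)) = 0 := (he _ _).2 (B_ex_ex Γ hne hadj)
  have hf : ∀ a b, ¬ (und Γ'.G).dir a b := fun _ _ h => h.elim
  have key : ∀ s t, Negative Γ' t → Γ'.G.Adj s t →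
      fx Γ Γ' e π (ex v) s * fx Γ Γ' e π (ex w) t
        + fx Γ Γ' e π (ex v) t * fx Γ Γ' e π (ex w) s = 0 := by
    intro s t ht hst
    have hd : Γ'.dir s t := hs' t ht s hst
    have hsn : ¬ Negative Γ' s := fun hn => Γ'.dir_asymm hd (hs' s hn t hst.symm)
    have h1 := congrFun (congrFun hB s) t
    simp only [B, Pi.zero_apply] at h1
    rw [if_pos hst, if_pos hd, if_neg (Γ'.dir_asymm hd)] at h1
    rw [fx_pos _ hsn, fx_pos _ hsn, fx_neg _ ht, fx_neg _ ht]
    have h2 := h (π.symm ⟨t, ht⟩)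
    rw [Equiv.apply_symm_apply] at h2
    change _ = ex t at h2
    by_cases hv : (π.symm ⟨t, ht⟩).1 = v
    · rw [hv] at h2 ⊢
      rw [h2, ex_same, ex_ne hst.ne] at h1
      rw [ex_same, ex_ne hne]
      linear_combination h1
    · by_cases hw : (π.symm ⟨t, ht⟩).1 = w
      · rw [hw] at h2 ⊢
        rw [h2, ex_same, ex_ne hst.ne] at h1
        rw [ex_same, ex_ne hne.symm]
        linear_combination h1
      · rw [ex_ne hv, ex_ne hw]
        ring
  ext s t
  simp only [B, Pi.zero_apply]
  by_cases hst : Γ'.G.Adj s t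
  · rw [if_pos (show (und Γ'.G).G.Adj s t from hst), if_neg (hf _ _), if_neg (hf _ _)]
    by_cases ht : Negative Γ' t
    · linear_combination key s t ht hst
    · by_cases hs : Negative Γ' s
      · linear_combination key t s hs hst.symm
      · have h1 := congrFun (congrFun hB s) t
        simp only [B, Pi.zero_apply] at h1
        rw [if_pos hst, if_neg (fun hd => ht ⟨s, hd⟩), if_neg (fun hd => hs ⟨t, hd⟩)] at h1
        rw [fx_pos _ hs, fx_pos _ hs, fx_pos _ ht, fx_pos _ ht]
        exact h1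
  · rw [if_neg (show ¬ (und Γ'.G).G.Adj s t from hst)]

end Fix

/-- The main theorem for finite types. -/
theorem main {Γ : MixedGraph V} {Γ' : MixedGraph V'} (hs : Special Γ) (hn : NoSatellites Γ)
    (f : T Γ' ≃* T Γ) : Iso Γ' Γ := by
  obtain ⟨e, π0, he, hπ0⟩ := straighten hs hn (B_pull f : Pres Γ Γ' (pullEquiv f))
  obtain ⟨hs', hneg⟩ := negative_iff hs he hπ0
  have hinj : Function.Injective π0 := by
    intro a b hab
    have h1 : e (ex a.1) = e (ex b.1) := by rw [hπ0, hπ0, hab]
    have h2 := congrFun (e.injective h1) a.1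
    rw [ex_same] at h2
    by_contra hne
    rw [ex_ne (fun h => hne (Subtype.ext h))] at h2
    exact absurd h2 (by decide)
  let π : {a // Negative Γ a} ≃ {a // Negative Γ' a} :=
    Equiv.ofBijective (fun a => ⟨π0 a, (hneg _).2 ⟨a, rfl⟩⟩)
      ⟨fun a b hab => hinj (congrArg Subtype.val hab), fun b => by
        obtain ⟨a, ha⟩ := (hneg b.1).1 b.2
        exact ⟨a, Subtype.ext ha⟩⟩
  have hπ : ∀ a, e (ex a.1) = ex (π a).1 := hπ0
  have H : Hyp Γ.G Γ'.G (fxEquiv hπ) := fun v w hne hadj => fx_hyp hs' he hπ hne hadj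
  have H' : Hyp Γ'.G Γ.G (fxEquiv hπ).symm := fun v w hne hadj =>
    fx_hyp (π := π.symm) hs he.symm (hsymm hπ) hne hadj
  obtain ⟨σ, h1, h2⟩ := comparison H H'
  have h3 : ∀ v, Negative Γ v ↔ Negative Γ' (σ v) := by
    intro v
    have hv : fx Γ Γ' e π (ex v) (σ v) = 1 := h1 v
    constructor
    · intro hn
      by_contra hc
      rw [fx_pos _ hc] at hv
      have h4 := hπ ⟨v, hn⟩
      change e (ex v) = _ at h4
      have h5 : σ v ≠ (π ⟨v, hn⟩).1 := fun h => hc (by rw [h]; exact (π ⟨v, hn⟩).2)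
      rw [h4, ex_ne h5] at hv
      exact absurd hv (by decide)
    · intro hn
      rw [fx_neg _ hn] at hv
      by_contra hc
      have h5 : (π.symm ⟨σ v, hn⟩).1 ≠ v := fun h => hc (by rw [← h]; exact (π.symm ⟨σ v, hn⟩).2)
      rw [ex_ne h5] at hv
      exact absurd hv (by decide)
  have h4 : ∀ u v, Γ.dir u v ↔ Γ.G.Adj u v ∧ Negative Γ v := fun u v =>
    ⟨fun h => ⟨Γ.dir_adj h, u, h⟩, fun h => hs v h.2 u h.1⟩
  have h5 : ∀ u v, Γ'.dir u v ↔ Γ'.G.Adj u v ∧ Negative Γ' v := fun u v =>
    ⟨fun h => ⟨Γ'.dir_adj h, u, h⟩, fun h => hs' v h.2 u h.1⟩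
  refine ⟨σ.symm, fun u v => ?_, fun u v => ?_⟩
  · rw [h2, σ.apply_symm_apply, σ.apply_symm_apply]
  · rw [h4, h5, h2, h3, σ.apply_symm_apply, σ.apply_symm_apply]

end Finite

/-- Every special mixed graph without satellites is rigid. -/
theorem result : ∀ (V : Type) [Finite V] (Γ : MixedGraph V),
    Special Γ → NoSatellites Γ → Rigid Γ := by
  intro V _ Γ hs hn V' _ Γ' ⟨f⟩
  have := Fintype.ofFinite V
  have := Fintype.ofFinite V'
  exact main hs hn f

end Pool.Agent.Results.MP_6cc975_al.SpecialRigid
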